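import Pool.Agent.Helper16.PR.Mat2b

/-!
# Piece CD16: dimension two
-/

namespace PR

open ContinuousLinearMap

namespace D2

open Matrix

section coord

variable {X : Type*} [NormedAddCommGroup X] [NormedSpace ℂ X]

theorem exists_coord (hX : Dim2 X) (hX' : ¬ Dim3 X) : Nonempty (X ≃L[ℂ] (Fin 2 → ℂ)) := by
  obtain ⟨v, hv⟩ := hX
  have hspan : ⊤ ≤ Submodule.span ℂ (Set.range v) := by
    intro w _
    by_contra hw
    apply hX'
    exact ⟨Fin.snoc v w, (linearIndependent_finSnoc).2 ⟨hv, hw⟩⟩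
  let b := Module.Basis.mk hv hspan
  have : FiniteDimensional ℂ X := b.finiteDimensional_of_finite
  exact ⟨b.equivFun.toContinuousLinearEquiv⟩

/-- the matrix of an operator -/
noncomputable def mt (e : X ≃L[ℂ] (Fin 2 → ℂ)) (T : X →L[ℂ] X) : MM :=
  LinearMap.toMatrix' ((e : X →ₗ[ℂ] (Fin 2 → ℂ)) ∘ₗ (T : X →ₗ[ℂ] X) ∘ₗ
    (e.symm : (Fin 2 → ℂ) →ₗ[ℂ] X))

/-- the operator of a matrix -/
noncomputable def op (e : X ≃L[ℂ] (Fin 2 → ℂ)) (M : MM) : X →L[ℂ] X :=
  (e.symm : (Fin 2 → ℂ) →L[ℂ] X) ∘L (LinearMap.toContinuousLinearMap (Matrix.toLin' M)) ∘L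
    (e : X →L[ℂ] (Fin 2 → ℂ))

variable (e : X ≃L[ℂ] (Fin 2 → ℂ))

theorem mt_mulVec (T : X →L[ℂ] X) (x : X) : mt e T *ᵥ e x = e (T x) := by
  unfold mt
  rw [LinearMap.toMatrix'_mulVec]
  simp

theorem op_apply (M : MM) (x : X) : e (op e M x) = M *ᵥ e x := by
  simp [op]

theorem mat_ext {M N : MM} (h : ∀ x : X, M *ᵥ e x = N *ᵥ e x) : M = N := by
  apply Matrix.toLin'.injective
  apply LinearMap.ext
  intro v
  have := h (e.symm v)
  simpa using this

theorem mt_op (M : MM) : mt e (op e M) = M :=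
  mat_ext e fun x => by rw [mt_mulVec, op_apply]

theorem op_mt (T : X →L[ℂ] X) : op e (mt e T) = T := by
  ext x
  apply e.injective
  rw [op_apply, mt_mulVec]

theorem mt_bra (σ : ℂ) (T S : X →L[ℂ] X) : mt e (bra σ T S) = bm σ (mt e T) (mt e S) := by
  refine mat_ext e fun x => ?_
  unfold bm
  rw [mt_mulVec, Matrix.add_mulVec, Matrix.smul_mulVec, ← Matrix.mulVec_mulVec,
    ← Matrix.mulVec_mulVec, mt_mulVec, mt_mulVec, mt_mulVec, mt_mulVec]
  simp [bra]

/-- basis vectors -/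
noncomputable def bv (i : Fin 2) : X := e.symm (Pi.single i 1)

/-- coordinate functionals -/
noncomputable def bf (i : Fin 2) : X →L[ℂ] ℂ := (ContinuousLinearMap.proj i) ∘L
  (e : X →L[ℂ] (Fin 2 → ℂ))

theorem bf_apply (i : Fin 2) (x : X) : bf e i x = e x i := rfl

theorem expand (x : X) : x = bf e 0 x • bv e 0 + bf e 1 x • bv e 1 := by
  apply e.injective
  rw [map_add, map_smul, map_smul]
  unfold bv
  rw [e.apply_symm_apply, e.apply_symm_apply]
  funext i
  fin_cases i <;> simp [bf_apply]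

theorem expandf (f : X →L[ℂ] ℂ) : f = f (bv e 0) • bf e 0 + f (bv e 1) • bf e 1 := by
  ext x
  conv_lhs => rw [expand e x]
  simp
  ring

theorem mt_apply (T : X →L[ℂ] X) (i j : Fin 2) : mt e T i j = bf e i (T (bv e j)) := by
  unfold mt
  rw [LinearMap.toMatrix'_apply]
  rfl

theorem bf_bv (i j : Fin 2) : bf e i (bv e j) = if i = j then 1 else 0 := by
  rw [bf_apply]
  unfold bv
  rw [e.apply_symm_apply, Pi.single_apply]

theorem op_expand (T : X →L[ℂ] X) : T = rk (T (bv e 0)) (bf e 0) + rk (T (bv e 1)) (bf e 1) := by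
  ext x
  conv_lhs => rw [expand e x]
  rw [map_add, map_smul, map_smul]
  rfl

variable [CompleteSpace X]

theorem sr_eq (T : X →L[ℂ] X) : sr T = RR (mt e T) := by
  conv_lhs => rw [op_expand e T]
  rw [sr_rk_add_rk]
  unfold RR
  rw [Matrix.trace_fin_two, Matrix.det_fin_two, mt_apply, mt_apply, mt_apply, mt_apply]

end coord

section trans

variable {X : Type*} [NormedAddCommGroup X] [NormedSpace ℂ X]
variable {Y : Type*} [NormedAddCommGroup Y] [NormedSpace ℂ Y]

/-- invertible matrices as maps -/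
noncomputable def meq (A : MM) (hA : A.det ≠ 0) : (Fin 2 → ℂ) ≃L[ℂ] (Fin 2 → ℂ) :=
  (Matrix.toLin'OfInv (M := A⁻¹) (M' := A)
    (Matrix.nonsing_inv_mul A (isUnit_iff_ne_zero.2 hA))
    (Matrix.mul_nonsing_inv A (isUnit_iff_ne_zero.2 hA))).toContinuousLinearEquiv

theorem meq_apply (A : MM) (hA : A.det ≠ 0) (v : Fin 2 → ℂ) : meq A hA v = A *ᵥ v := rfl

/-- functionals as vectors -/
noncomputable def jj (e : X ≃L[ℂ] (Fin 2 → ℂ)) : (Fin 2 → ℂ) ≃L[ℂ] (X →L[ℂ] ℂ) :=
  ({ toFun := fun v => (-v 1) • bf e 0 + v 0 • bf e 1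
     map_add' := fun v w => by
      ext z; simp; ring
     map_smul' := fun c v => by
      simp only [Pi.smul_apply, smul_eq_mul, RingHom.id_apply, smul_add, smul_smul]
      rw [mul_neg]
     invFun := fun f => ![f (bv e 1), -f (bv e 0)]
     left_inv := fun v => by
      funext i
      fin_cases i
      · simp [bf_bv]
      · simp [bf_bv]
     right_inv := fun f => by
      conv_rhs => rw [expandf e f]
      simp } : (Fin 2 → ℂ) ≃ₗ[ℂ] (X →L[ℂ] ℂ)).toContinuousLinearEquiv

theorem jj_symm_apply (e : X ≃L[ℂ] (Fin 2 → ℂ)) (f : X →L[ℂ] ℂ) :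
    (jj e).symm f = ![f (bv e 1), -f (bv e 0)] := rfl

theorem jj_comp (e : X ≃L[ℂ] (Fin 2 → ℂ)) (f : X →L[ℂ] ℂ) (T : X →L[ℂ] X) :
    (jj e).symm (f.comp T) = ad (mt e T) *ᵥ (jj e).symm f := by
  have h : ∀ j, f (T (bv e j)) = mt e T 0 j * f (bv e 0) + mt e T 1 j * f (bv e 1) := by
    intro j
    conv_lhs => rw [expand e (T (bv e j))]
    rw [map_add, map_smul, map_smul, ← mt_apply, ← mt_apply]
    rfl
  rw [jj_symm_apply, jj_symm_apply]
  funext i
  fin_cases i
  · show f (T (bv e 1)) = (ad (mt e T) *ᵥ ![f (bv e 1), -f (bv e 0)]) 0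
    rw [mulVec0, ad_apply00, ad_apply01, h]
    show _ = mt e T 1 1 * f (bv e 1) + -mt e T 0 1 * -f (bv e 0)
    ring
  · show -f (T (bv e 0)) = (ad (mt e T) *ᵥ ![f (bv e 1), -f (bv e 0)]) 1
    rw [mulVec1, ad_apply11, ad_apply10, h]
    show _ = -mt e T 1 0 * f (bv e 1) + mt e T 0 0 * -f (bv e 0)
    ring

theorem refl_of (e : X ≃L[ℂ] (Fin 2 → ℂ)) : Refl X := by
  intro F
  refine ⟨F (bf e 0) • bv e 0 + F (bf e 1) • bv e 1, fun f => ?_⟩
  conv_lhs => rw [expandf e f]
  rw [map_add, map_smul, map_smul, map_add, map_smul, map_smul]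
  simp only [smul_eq_mul]
  ring

theorem ad_conj (T : MM) : ad (T.map (starRingEnd ℂ)) = (ad T).map (starRingEnd ℂ) := by
  ext i j
  fin_cases i <;> fin_cases j
  · show ad (T.map (starRingEnd ℂ)) 0 0 = starRingEnd ℂ (ad T 0 0)
    rw [ad_apply00, ad_apply00, Matrix.map_apply]
  · show ad (T.map (starRingEnd ℂ)) 0 1 = starRingEnd ℂ (ad T 0 1)
    rw [ad_apply01, ad_apply01, Matrix.map_apply, map_neg]
  · show ad (T.map (starRingEnd ℂ)) 1 0 = starRingEnd ℂ (ad T 1 0)
    rw [ad_apply10, ad_apply10, Matrix.map_apply, map_neg]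
  · show ad (T.map (starRingEnd ℂ)) 1 1 = starRingEnd ℂ (ad T 1 1)
    rw [ad_apply11, ad_apply11, Matrix.map_apply]

/-- conjugation on `ℂ²` -/
noncomputable def cj : (Fin 2 → ℂ) ≃SL[starRingEnd ℂ] (Fin 2 → ℂ) := starL ℂ

theorem cj_apply (v : Fin 2 → ℂ) : cj v = star v := rfl

end trans

end D2

open D2 Matrix

variable {X : Type*} [NormedAddCommGroup X] [NormedSpace ℂ X] [CompleteSpace X]
variable {Y : Type*} [NormedAddCommGroup Y] [NormedSpace ℂ Y] [CompleteSpace Y]
variable {σ : ℂ}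

theorem main_cd_two (hσ : σ = 1 ∨ σ = -1) (hX : Dim2 X) (hX' : ¬ Dim3 X) (hY : Dim2 Y)
    (hY' : ¬ Dim3 Y) {φ : (X →L[ℂ] X) → (Y →L[ℂ] Y)} (hs : Function.Surjective φ)
    (h : ∀ T S, sr (bra σ (φ T) (φ S)) = sr (bra σ T S)) :
    ∃ c h : (X →L[ℂ] X) → ℂ, (∀ T, ‖c T‖ = 1) ∧ (σ = 1 → h = fun _ => 0) ∧
      (FormI c h φ ∨ FormII c h φ) := by
  obtain ⟨eX⟩ := exists_coord hX hX'
  obtain ⟨eY⟩ := exists_coord hY hY'
  set ψ : MM → MM := fun M => mt eY (φ (op eX M)) with hψ
  have hψs : Function.Surjective ψ := by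
    intro N
    obtain ⟨T, hT⟩ := hs (op eY N)
    refine ⟨mt eX T, ?_⟩
    show mt eY (φ (op eX (mt eX T))) = N
    rw [op_mt, hT, mt_op]
  have hψh : ∀ T S, RR (bm σ (ψ T) (ψ S)) = RR (bm σ T S) := by
    intro T S
    show RR (bm σ (mt eY (φ (op eX T))) (mt eY (φ (op eX S)))) = _
    rw [← mt_bra, ← sr_eq, h, sr_eq eX, mt_bra, mt_op, mt_op]
  have hψT : ∀ T, mt eY (φ T) = ψ (mt eX T) := by
    intro T
    show _ = mt eY (φ (op eX (mt eX T)))
    rw [op_mt]
  obtain ⟨A, hA, hF | hF⟩ := mat_main hσ hψs hψh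
  · obtain ⟨c, μ, hc, hμ, hf | hf⟩ := hF
    · refine ⟨fun T => c (mt eX T), fun T => μ (mt eX T), fun T => hc _,
        fun hσ' => funext fun T => hμ hσ' _, Or.inl (Or.inl ?_)⟩
      refine ⟨eX.trans ((meq A hA).trans eY.symm), fun T y => ?_⟩
      obtain ⟨x, rfl⟩ := (eX.trans ((meq A hA).trans eY.symm)).surjective y
      rw [ContinuousLinearEquiv.symm_apply_apply]
      apply eY.injective
      have e1 : ∀ z, eY ((eX.trans ((meq A hA).trans eY.symm)) z) = A *ᵥ eX z := by
        intro z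
        rw [ContinuousLinearEquiv.trans_apply, ContinuousLinearEquiv.trans_apply,
          ContinuousLinearEquiv.apply_symm_apply, meq_apply]
      rw [← mt_mulVec, map_add, map_smul, map_smul, e1, e1, hψT, Matrix.mulVec_mulVec, hf,
        ← Matrix.mulVec_mulVec, Matrix.add_mulVec, Matrix.smul_mulVec, Matrix.smul_mulVec,
        Matrix.one_mulVec, Matrix.mulVec_add, Matrix.mulVec_smul, Matrix.mulVec_smul, mt_mulVec]
    · refine ⟨fun T => c (mt eX T), fun T => μ (mt eX T), fun T => hc _,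
        fun hσ' => funext fun T => hμ hσ' _, Or.inr ⟨refl_of eX, Or.inl ?_⟩⟩
      refine ⟨(jj eX).symm.trans ((meq A hA).trans eY.symm), fun T y => ?_⟩
      obtain ⟨f, rfl⟩ := ((jj eX).symm.trans ((meq A hA).trans eY.symm)).surjective y
      rw [ContinuousLinearEquiv.symm_apply_apply]
      apply eY.injective
      have e1 : ∀ z, eY (((jj eX).symm.trans ((meq A hA).trans eY.symm)) z) =
          A *ᵥ (jj eX).symm z := by
        intro z
        rw [ContinuousLinearEquiv.trans_apply, ContinuousLinearEquiv.trans_apply,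
          ContinuousLinearEquiv.apply_symm_apply, meq_apply]
      rw [← mt_mulVec, map_add, map_smul, map_smul, e1, e1, hψT, Matrix.mulVec_mulVec, hf,
        ← Matrix.mulVec_mulVec, Matrix.add_mulVec, Matrix.smul_mulVec, Matrix.smul_mulVec,
        Matrix.one_mulVec, Matrix.mulVec_add, Matrix.mulVec_smul, Matrix.mulVec_smul, jj_comp]
  · obtain ⟨c, μ, hc, hμ, hf | hf⟩ := hF
    · refine ⟨fun T => c ((mt eX T).map (starRingEnd ℂ)),
        fun T => μ ((mt eX T).map (starRingEnd ℂ)), fun T => hc _,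
        fun hσ' => funext fun T => hμ hσ' _, Or.inl (Or.inr ?_)⟩
      refine ⟨eX.trans (cj.trans ((meq A hA).trans eY.symm)), fun T y => ?_⟩
      obtain ⟨x, rfl⟩ := (eX.trans (cj.trans ((meq A hA).trans eY.symm))).surjective y
      rw [ContinuousLinearEquiv.symm_apply_apply]
      apply eY.injective
      have e1 : ∀ z, eY ((eX.trans (cj.trans ((meq A hA).trans eY.symm))) z) =
          A *ᵥ star (eX z) := by
        intro z
        rw [ContinuousLinearEquiv.trans_apply, ContinuousLinearEquiv.trans_apply,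
          ContinuousLinearEquiv.trans_apply, ContinuousLinearEquiv.apply_symm_apply, meq_apply,
          cj_apply]
      have e2 : ψ (mt eX T) * A = A * (c ((mt eX T).map (starRingEnd ℂ)) •
          (mt eX T).map (starRingEnd ℂ) + μ ((mt eX T).map (starRingEnd ℂ)) • (1 : MM)) := by
        have := hf ((mt eX T).map (starRingEnd ℂ))
        simpa only [map_conj_conj] using this
      rw [← mt_mulVec, map_add, map_smul, map_smul, e1, e1, hψT, Matrix.mulVec_mulVec, e2,
        ← Matrix.mulVec_mulVec, Matrix.add_mulVec, Matrix.smul_mulVec, Matrix.smul_mulVec,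
        Matrix.one_mulVec, Matrix.mulVec_add, Matrix.mulVec_smul, Matrix.mulVec_smul,
        map_conj_mulVec, mt_mulVec]
    · refine ⟨fun T => c ((mt eX T).map (starRingEnd ℂ)),
        fun T => μ ((mt eX T).map (starRingEnd ℂ)), fun T => hc _,
        fun hσ' => funext fun T => hμ hσ' _, Or.inr ⟨refl_of eX, Or.inr ?_⟩⟩
      refine ⟨(jj eX).symm.trans (cj.trans ((meq A hA).trans eY.symm)), fun T y => ?_⟩
      obtain ⟨f, rfl⟩ := ((jj eX).symm.trans (cj.trans ((meq A hA).trans eY.symm))).surjective y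
      rw [ContinuousLinearEquiv.symm_apply_apply]
      apply eY.injective
      have e1 : ∀ z, eY (((jj eX).symm.trans (cj.trans ((meq A hA).trans eY.symm))) z) =
          A *ᵥ star ((jj eX).symm z) := by
        intro z
        rw [ContinuousLinearEquiv.trans_apply, ContinuousLinearEquiv.trans_apply,
          ContinuousLinearEquiv.trans_apply, ContinuousLinearEquiv.apply_symm_apply, meq_apply,
          cj_apply]
      have e2 : ψ (mt eX T) * A = A * (c ((mt eX T).map (starRingEnd ℂ)) •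
          (ad (mt eX T)).map (starRingEnd ℂ) +
            μ ((mt eX T).map (starRingEnd ℂ)) • (1 : MM)) := by
        have := hf ((mt eX T).map (starRingEnd ℂ))
        rw [ad_conj] at this
        simpa only [map_conj_conj] using this
      rw [← mt_mulVec, map_add, map_smul, map_smul, e1, e1, hψT, Matrix.mulVec_mulVec, e2,
        ← Matrix.mulVec_mulVec, Matrix.add_mulVec, Matrix.smul_mulVec, Matrix.smul_mulVec,
        Matrix.one_mulVec, Matrix.mulVec_add, Matrix.mulVec_smul, Matrix.mulVec_smul,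
        map_conj_mulVec, jj_comp]

end PR
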