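import Pool.Agent.Helper40.PR.Defs2
import Pool.Agent.Helper8.PR.TK1
import Pool.Agent.Helper59.PR.TK2
import Pool.Agent.Helper55.PR.TK4B
import Pool.Agent.Helper43.PR.TK9

/-!
# Piece CD16: dimension two, matrix version
-/

namespace PR

namespace D2

open Matrix

/-- two by two matrices -/
abbrev MM := Matrix (Fin 2) (Fin 2) ℂ

/-- the symplectic form -/
def om (x y : Fin 2 → ℂ) : ℂ := x 0 * y 1 - x 1 * y 0

/-- the nilpotent matrix of a vector -/
def Nn (x : Fin 2 → ℂ) : MM := !![-(x 0 * x 1), x 0 ^ 2; -(x 1 ^ 2), x 0 * x 1]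

/-- the spectral radius of a matrix -/
noncomputable def RR (M : MM) : ℝ := Rt M.trace M.det

/-- `TS + σ ST` -/
def bm (σ : ℂ) (T S : MM) : MM := T * S + σ • (S * T)

theorem mulVec0 (T : MM) (x : Fin 2 → ℂ) : (T *ᵥ x) 0 = T 0 0 * x 0 + T 0 1 * x 1 := by
  simp [Matrix.mulVec, dotProduct, Fin.sum_univ_two]

theorem mulVec1 (T : MM) (x : Fin 2 → ℂ) : (T *ᵥ x) 1 = T 1 0 * x 0 + T 1 1 * x 1 := by
  simp [Matrix.mulVec, dotProduct, Fin.sum_univ_two]

theorem om_mulVec (T : MM) (x : Fin 2 → ℂ) :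
    om x (T *ᵥ x) = T 1 0 * x 0 ^ 2 + (T 1 1 - T 0 0) * x 0 * x 1 - T 0 1 * x 1 ^ 2 := by
  simp only [om, mulVec0, mulVec1]; ring

theorem bm_apply (σ : ℂ) (T S : MM) (i j : Fin 2) : bm σ T S i j =
    (T i 0 * S 0 j + T i 1 * S 1 j) + σ * (S i 0 * T 0 j + S i 1 * T 1 j) := by
  simp [bm, Matrix.mul_apply, Fin.sum_univ_two]

theorem Nn00 (x : Fin 2 → ℂ) : Nn x 0 0 = -(x 0 * x 1) := rfl
theorem Nn01 (x : Fin 2 → ℂ) : Nn x 0 1 = x 0 ^ 2 := rfl
theorem Nn10 (x : Fin 2 → ℂ) : Nn x 1 0 = -(x 1 ^ 2) := rfl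
theorem Nn11 (x : Fin 2 → ℂ) : Nn x 1 1 = x 0 * x 1 := rfl

theorem trace_bm_N (σ : ℂ) (T : MM) (x : Fin 2 → ℂ) :
    (bm σ T (Nn x)).trace = (1 + σ) * om x (T *ᵥ x) := by
  simp only [Matrix.trace_fin_two, bm_apply, Nn00, Nn01, Nn10, Nn11, om_mulVec]; ring

theorem det_bm_N (σ : ℂ) (T : MM) (x : Fin 2 → ℂ) :
    (bm σ T (Nn x)).det = σ * om x (T *ᵥ x) ^ 2 := by
  simp only [Matrix.det_fin_two, bm_apply, Nn00, Nn01, Nn10, Nn11, om_mulVec]; ring

variable {σ : ℂ}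

theorem RR_bm_N (hσ : σ = 1 ∨ σ = -1) (T : MM) (x : Fin 2 → ℂ) :
    RR (bm σ T (Nn x)) = ‖om x (T *ᵥ x)‖ := by
  unfold RR
  rw [trace_bm_N, det_bm_N]
  rcases hσ with rfl | rfl
  · rw [Rt_eq (l1 := om x (T *ᵥ x)) (l2 := om x (T *ᵥ x)) (by ring) (by ring), max_self]
  · rw [Rt_eq (l1 := om x (T *ᵥ x)) (l2 := -om x (T *ᵥ x)) (by ring) (by ring), norm_neg,
      max_self]

theorem RR_smul (c : ℂ) (M : MM) : RR (c • M) = ‖c‖ * RR M := by
  unfold RR
  rw [Matrix.trace_smul, Matrix.det_smul, Fintype.card_fin, smul_eq_mul, Rt_smul]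

theorem RR_neg (M : MM) : RR (-M) = RR M := by
  have := RR_smul (-1) M
  simpa using this

theorem RR_nonneg (M : MM) : 0 ≤ RR M := by
  unfold RR Rt
  exact le_max_of_le_left (norm_nonneg _)

theorem RR_bm_comm (hσ : σ = 1 ∨ σ = -1) (T S : MM) : RR (bm σ T S) = RR (bm σ S T) := by
  rcases hσ with rfl | rfl
  · congr 1
    unfold bm
    rw [one_smul, one_smul, add_comm]
  · rw [← RR_neg]
    congr 1
    unfold bm
    simp only [neg_smul, one_smul]
    abel

theorem bm_add_scalar (T S : MM) (c : ℂ) : bm (-1) (T + c • (1 : MM)) S = bm (-1) T S := by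
  unfold bm
  simp only [add_mul, mul_add, smul_mul_assoc, mul_smul_comm, one_mul, mul_one, neg_smul,
    one_smul]
  abel

/-- the nilpotent of a scalar multiple -/
theorem Nn_mulVec (x y : Fin 2 → ℂ) : Nn x *ᵥ y = om x y • x := by
  funext i
  fin_cases i
  · show (Nn x *ᵥ y) 0 = _
    rw [mulVec0, Nn00, Nn01]
    simp [om]; ring
  · show (Nn x *ᵥ y) 1 = _
    rw [mulVec1, Nn10, Nn11]
    simp [om]; ring

theorem om_self (x : Fin 2 → ℂ) : om x x = 0 := by unfold om; ring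

theorem om_smul (c : ℂ) (x y : Fin 2 → ℂ) : om x (c • y) = c * om x y := by
  simp [om]; ring

theorem om_smul_left (c : ℂ) (x y : Fin 2 → ℂ) : om (c • x) y = c * om x y := by
  simp [om]; ring

theorem om_add (x y z : Fin 2 → ℂ) : om x (y + z) = om x y + om x z := by
  simp [om]; ring

theorem om_antisymm (x y : Fin 2 → ℂ) : om x y = -om y x := by
  unfold om; ring

/-- parallel vectors -/
theorem parallel_of_om {x y : Fin 2 → ℂ} (hx : x ≠ 0) (h : om x y = 0) : ∃ c : ℂ, y = c • x := by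
  unfold om at h
  by_cases h0 : x 0 = 0
  · have h1 : x 1 ≠ 0 := by
      intro h1; apply hx; funext i; fin_cases i
      · exact h0
      · exact h1
    refine ⟨y 1 / x 1, ?_⟩
    have h2 : y 0 = 0 := by
      rw [h0, zero_mul, zero_sub, neg_eq_zero] at h
      exact (mul_eq_zero.1 h).resolve_left h1
    funext i; fin_cases i
    · simp [h0, h2]
    · simp [h1]
  · refine ⟨y 0 / x 0, ?_⟩
    funext i; fin_cases i
    · simp [h0]
    · show y 1 = (y 0 / x 0) * x 1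
      field_simp
      linear_combination h

theorem exists_om_ne {x : Fin 2 → ℂ} (hx : x ≠ 0) : ∃ y, om x y ≠ 0 := by
  by_cases h0 : x 0 = 0
  · have h1 : x 1 ≠ 0 := by
      intro h1; apply hx; funext i; fin_cases i
      · exact h0
      · exact h1
    exact ⟨![1, 0], by simp [om, h1]⟩
  · exact ⟨![0, 1], by simp [om, h0]⟩

theorem om_mul (A : MM) (x y : Fin 2 → ℂ) : om (A *ᵥ x) (A *ᵥ y) = A.det * om x y := by
  simp only [om, mulVec0, mulVec1, Matrix.det_fin_two]; ring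

/-- the test -/
theorem RR_test (hσ : σ = 1 ∨ σ = -1) (x y : Fin 2 → ℂ) (γ : ℂ) :
    RR (bm σ (Nn y + γ • (1 : MM)) (Nn x)) = ‖om x y‖ ^ 2 := by
  rw [RR_bm_N hσ, Matrix.add_mulVec, Nn_mulVec, Matrix.smul_mulVec, Matrix.one_mulVec, om_add,
    om_smul, om_smul, om_self, mul_zero, add_zero, norm_mul, om_antisymm y x, norm_neg, sq]

/-! ### Nilpotents plus scalars -/

/-- the algebraic characterisation -/
def PP (σ : ℂ) (T : MM) : Prop :=
  (∃ S, RR (bm σ T S) ≠ 0) ∧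
    (σ = -1 → ∀ S₁ S₂, RR (bm σ T S₁) = 0 → RR (bm σ T S₂) = 0 → RR (bm σ S₁ S₂) = 0) ∧
    (σ = 1 → RR (bm σ T T) = 0)

theorem RR_comm_eq_zero_iff (T S : MM) : RR (bm (-1) T S) = 0 ↔ (bm (-1) T S).det = 0 := by
  have h1 : (bm (-1) T S).trace = 0 := by
    simp only [Matrix.trace_fin_two, bm_apply]; ring
  unfold RR
  rw [h1, Rt_zero_left, Real.sqrt_eq_zero (norm_nonneg _), norm_eq_zero]

theorem nil_form {a b c : ℂ} (h : a ^ 2 + b * c = 0) :
    ∃ x : Fin 2 → ℂ, (!![a, b; c, -a] : MM) = Nn x := by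
  obtain ⟨p, hp⟩ := IsAlgClosed.exists_pow_nat_eq b (n := 2) (by norm_num)
  obtain ⟨q, hq⟩ := IsAlgClosed.exists_pow_nat_eq (-c) (n := 2) (by norm_num)
  have h1 : (p * q - a) * (p * q + a) = 0 := by
    have : (p * q - a) * (p * q + a) = p ^ 2 * q ^ 2 - a ^ 2 := by ring
    rw [this, hp, hq]; linear_combination -h
  rcases mul_eq_zero.1 h1 with h2 | h2
  · refine ⟨![p, -q], ?_⟩
    ext i j
    fin_cases i <;> fin_cases j
    · show a = -(p * -q); linear_combination -h2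
    · show b = p ^ 2; exact hp.symm
    · show c = -((-q) ^ 2); linear_combination hq
    · show -a = p * -q; linear_combination h2
  · refine ⟨![p, q], ?_⟩
    ext i j
    fin_cases i <;> fin_cases j
    · show a = -(p * q); linear_combination h2
    · show b = p ^ 2; exact hp.symm
    · show c = -(q ^ 2); linear_combination hq
    · show -a = p * q; linear_combination -h2

theorem Nn_zero : Nn 0 = 0 := by
  ext i j
  fin_cases i <;> fin_cases j <;> simp [Nn]

theorem PP_of_nil (hσ : σ = 1 ∨ σ = -1) {x : Fin 2 → ℂ} (hx : x ≠ 0) (γ : ℂ)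
    (hγ : σ = 1 → γ = 0) : PP σ (Nn x + γ • (1 : MM)) := by
  refine ⟨?_, ?_, ?_⟩
  · obtain ⟨y, hy⟩ := exists_om_ne hx
    refine ⟨Nn y, ?_⟩
    rw [RR_test hσ]
    have : om y x ≠ 0 := by rw [om_antisymm]; exact neg_ne_zero.2 hy
    exact pow_ne_zero 2 (norm_ne_zero_iff.2 this)
  · rintro rfl S₁ S₂ h1 h2
    rw [bm_add_scalar, RR_bm_comm hσ, RR_bm_N hσ, norm_eq_zero] at h1 h2
    obtain ⟨c1, e1⟩ := parallel_of_om hx h1
    obtain ⟨c2, e2⟩ := parallel_of_om hx h2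
    rw [RR_comm_eq_zero_iff, ← Matrix.exists_mulVec_eq_zero_iff]
    refine ⟨x, hx, ?_⟩
    unfold bm
    rw [Matrix.add_mulVec, Matrix.smul_mulVec, ← Matrix.mulVec_mulVec, ← Matrix.mulVec_mulVec,
      e1, e2, Matrix.mulVec_smul, Matrix.mulVec_smul, e1, e2, smul_smul, smul_smul, smul_smul,
      ← add_smul]
    rw [show c2 * c1 + -1 * c1 * c2 = 0 by ring, zero_smul]
  · rintro rfl
    rw [hγ rfl, zero_smul, add_zero, RR_bm_N hσ, Nn_mulVec, om_self, zero_smul]
    simp [om]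

theorem RR_zero : RR 0 = 0 := by
  unfold RR
  rw [Matrix.trace_zero, Matrix.det_zero, Rt_zero_left, norm_zero, Real.sqrt_zero]

theorem RR_eq_zero {M : MM} (h : RR M = 0) : M.trace = 0 ∧ M.det = 0 := by
  unfold RR at h
  have h1 := norm_tr_le M.trace M.det
  have h2 := norm_det_le M.trace M.det
  rw [h] at h1 h2
  constructor
  · exact norm_le_zero_iff.1 (by linarith)
  · exact norm_le_zero_iff.1 (by linarith)

theorem bm_scalar (γ : ℂ) (S : MM) : bm (-1) (γ • (1 : MM)) S = 0 := by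
  have := bm_add_scalar 0 S γ
  rw [zero_add] at this
  rw [this]
  unfold bm
  simp

theorem nil_of_PP (hσ : σ = 1 ∨ σ = -1) {T : MM} (h : PP σ T) :
    ∃ (x : Fin 2 → ℂ) (γ : ℂ), x ≠ 0 ∧ (σ = 1 → γ = 0) ∧ T = Nn x + γ • (1 : MM) := by
  obtain ⟨⟨S, hS⟩, hm, hp⟩ := h
  rcases hσ with rfl | rfl
  · obtain ⟨h1, h2⟩ := RR_eq_zero (hp rfl)
    simp only [Matrix.trace_fin_two, Matrix.det_fin_two, bm_apply] at h1 h2
    have h3 : (T 0 0 * T 1 1 - T 0 1 * T 1 0) ^ 2 = 0 := by linear_combination h2 / 4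
    have h3' : T 0 0 * T 1 1 - T 0 1 * T 1 0 = 0 := by simpa using h3
    have h4 : (T 0 0 + T 1 1) ^ 2 = 0 := by linear_combination h1 / 2 + 2 * h3'
    have h4' : T 0 0 + T 1 1 = 0 := by simpa using h4
    obtain ⟨x, hx⟩ := nil_form (a := T 0 0) (b := T 0 1) (c := T 1 0)
      (by linear_combination -h3' + T 0 0 * h4')
    have hT : T = Nn x := by
      rw [← hx]
      ext i j
      fin_cases i <;> fin_cases j
      · rfl
      · rfl
      · rfl
      · show T 1 1 = -T 0 0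
        linear_combination h4'
    refine ⟨x, 0, ?_, fun _ => rfl, by rw [zero_smul, add_zero, hT]⟩
    rintro rfl
    rw [Nn_zero] at hT
    apply hS
    rw [hT]
    unfold bm
    simp [RR_zero]
  · have hm := hm rfl
    have hD : (T 0 0 - T 1 1) ^ 2 + 4 * (T 0 1 * T 1 0) = 0 := by
      by_contra hD
      have key : ∃ x₁ x₂ : Fin 2 → ℂ, om x₁ (T *ᵥ x₁) = 0 ∧ om x₂ (T *ᵥ x₂) = 0 ∧
          om x₁ x₂ ≠ 0 := by
        by_cases hc : T 1 0 = 0
        · have hm0 : T 0 0 - T 1 1 ≠ 0 := by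
            intro h0
            apply hD
            rw [h0, hc]; ring
          refine ⟨![1, 0], ![T 0 1, -(T 0 0 - T 1 1)], ?_, ?_, ?_⟩
          · rw [om_mulVec]; simp [hc]
          · rw [om_mulVec]
            show T 1 0 * (T 0 1) ^ 2 + (T 1 1 - T 0 0) * (T 0 1) * (-(T 0 0 - T 1 1)) -
              T 0 1 * (-(T 0 0 - T 1 1)) ^ 2 = 0
            rw [hc]; ring
          · show (1 : ℂ) * (-(T 0 0 - T 1 1)) - 0 * (T 0 1) ≠ 0
            intro h0
            apply hm0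
            linear_combination -h0
        · obtain ⟨s, hs⟩ := IsAlgClosed.exists_pow_nat_eq
            ((T 0 0 - T 1 1) ^ 2 + 4 * (T 0 1 * T 1 0)) (n := 2) (by norm_num)
          have hs0 : s ≠ 0 := by
            rintro rfl
            apply hD
            rw [← hs]; ring
          refine ⟨![(T 0 0 - T 1 1) + s, 2 * T 1 0], ![(T 0 0 - T 1 1) - s, 2 * T 1 0], ?_, ?_, ?_⟩
          · rw [om_mulVec]
            show T 1 0 * ((T 0 0 - T 1 1) + s) ^ 2 +
              (T 1 1 - T 0 0) * ((T 0 0 - T 1 1) + s) * (2 * T 1 0) -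
              T 0 1 * (2 * T 1 0) ^ 2 = 0
            linear_combination (T 1 0) * hs
          · rw [om_mulVec]
            show T 1 0 * ((T 0 0 - T 1 1) - s) ^ 2 +
              (T 1 1 - T 0 0) * ((T 0 0 - T 1 1) - s) * (2 * T 1 0) -
              T 0 1 * (2 * T 1 0) ^ 2 = 0
            linear_combination (T 1 0) * hs
          · show ((T 0 0 - T 1 1) + s) * (2 * T 1 0) - (2 * T 1 0) * ((T 0 0 - T 1 1) - s) ≠ 0
            have : ((T 0 0 - T 1 1) + s) * (2 * T 1 0) - (2 * T 1 0) * ((T 0 0 - T 1 1) - s) =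
              4 * (T 1 0 * s) := by ring
            rw [this]
            exact mul_ne_zero (by norm_num) (mul_ne_zero hc hs0)
      obtain ⟨x₁, x₂, h1, h2, h3⟩ := key
      have h4 := hm (Nn x₁) (Nn x₂) (by rw [RR_bm_N (Or.inr rfl), h1, norm_zero])
        (by rw [RR_bm_N (Or.inr rfl), h2, norm_zero])
      have h5 := RR_test (σ := -1) (Or.inr rfl) x₂ x₁ 0
      rw [zero_smul, add_zero, h4] at h5
      have h6 : ‖om x₂ x₁‖ = 0 := by
        have := h5.symm
        simpa using this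
      rw [norm_eq_zero, om_antisymm, neg_eq_zero] at h6
      exact h3 h6
    obtain ⟨x, hx⟩ := nil_form (a := (T 0 0 - T 1 1) / 2) (b := T 0 1) (c := T 1 0)
      (by linear_combination hD / 4)
    have hT : T = Nn x + ((T 0 0 + T 1 1) / 2) • (1 : MM) := by
      rw [← hx]
      ext i j
      fin_cases i <;> fin_cases j
      · show T 0 0 = _
        simp [Matrix.add_apply, Matrix.smul_apply]; ring
      · show T 0 1 = _
        simp [Matrix.add_apply, Matrix.smul_apply]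
      · show T 1 0 = _
        simp [Matrix.add_apply, Matrix.smul_apply]
      · show T 1 1 = _
        simp [Matrix.add_apply, Matrix.smul_apply]; ring
    refine ⟨x, _, ?_, fun h => by norm_num at h, hT⟩
    rintro rfl
    rw [Nn_zero, zero_add] at hT
    apply hS
    rw [hT, bm_scalar, RR_zero]

/-! ### The Wigner part -/

theorem RR_test' (hσ : σ = 1 ∨ σ = -1) (T : MM) (y : Fin 2 → ℂ) {γ : ℂ} (hγ : σ = 1 → γ = 0) :
    RR (bm σ T (Nn y + γ • (1 : MM))) = ‖om y (T *ᵥ y)‖ := by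
  rcases hσ with rfl | rfl
  · rw [hγ rfl, zero_smul, add_zero, RR_bm_N (Or.inl rfl)]
  · rw [RR_bm_comm (Or.inr rfl), bm_add_scalar, RR_bm_comm (Or.inr rfl), RR_bm_N (Or.inr rfl)]

section wig

variable {ψ : MM → MM}

theorem PP_iff (hσ : σ = 1 ∨ σ = -1) (hs : Function.Surjective ψ)
    (h : ∀ T S, RR (bm σ (ψ T) (ψ S)) = RR (bm σ T S)) (T : MM) : PP σ (ψ T) ↔ PP σ T := by
  unfold PP
  refine and_congr ?_ (and_congr ?_ ?_)
  · constructor
    · rintro ⟨S, hS⟩
      obtain ⟨S, rfl⟩ := hs S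
      exact ⟨S, by rwa [h] at hS⟩
    · rintro ⟨S, hS⟩
      exact ⟨ψ S, by rwa [h]⟩
  · refine imp_congr Iff.rfl ?_
    constructor
    · intro H S₁ S₂ h1 h2
      have := H (ψ S₁) (ψ S₂) (by rwa [h]) (by rwa [h])
      rwa [h] at this
    · intro H S₁ S₂ h1 h2
      obtain ⟨S₁, rfl⟩ := hs S₁
      obtain ⟨S₂, rfl⟩ := hs S₂
      rw [h] at h1 h2 ⊢
      exact H S₁ S₂ h1 h2
  · rw [h]

theorem map_conj_mulVec (T : MM) (x : Fin 2 → ℂ) :
    (T.map (starRingEnd ℂ)) *ᵥ (star x) = star (T *ᵥ x) := by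
  funext i
  fin_cases i
  · show (T.map (starRingEnd ℂ) *ᵥ star x) 0 = star ((T *ᵥ x) 0)
    rw [mulVec0, mulVec0]
    simp
  · show (T.map (starRingEnd ℂ) *ᵥ star x) 1 = star ((T *ᵥ x) 1)
    rw [mulVec1, mulVec1]
    simp

theorem om_star (x y : Fin 2 → ℂ) : om (star x) (star y) = star (om x y) := by
  simp [om]

theorem wig (hσ : σ = 1 ∨ σ = -1) (hs : Function.Surjective ψ)
    (h : ∀ T S, RR (bm σ (ψ T) (ψ S)) = RR (bm σ T S)) :
    ∃ A : MM, ‖A.det‖ = 1 ∧
      ((∀ T x, ‖om (A *ᵥ x) (ψ T *ᵥ (A *ᵥ x))‖ = ‖om x (T *ᵥ x)‖) ∨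
       (∀ T x, ‖om (A *ᵥ x) (ψ (T.map (starRingEnd ℂ)) *ᵥ (A *ᵥ x))‖ = ‖om x (T *ᵥ x)‖)) := by
  have hex : ∀ x : Fin 2 → ℂ, ∃ (y : Fin 2 → ℂ) (γ : ℂ), (x ≠ 0 → y ≠ 0) ∧ (x = 0 → y = 0) ∧
      (x ≠ 0 → (σ = 1 → γ = 0) ∧ ψ (Nn x) = Nn y + γ • (1 : MM)) := by
    intro x
    by_cases hx : x = 0
    · exact ⟨0, 0, fun h => absurd hx h, fun _ => rfl, fun h => absurd hx h⟩
    · have h1 : PP σ (ψ (Nn x)) := by
        rw [PP_iff hσ hs h]
        have := PP_of_nil hσ hx 0 (fun _ => rfl)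
        rwa [zero_smul, add_zero] at this
      obtain ⟨y, γ, hy, hγ, e⟩ := nil_of_PP hσ h1
      exact ⟨y, γ, fun _ => hy, fun h => absurd h hx, fun _ => ⟨hγ, e⟩⟩
  choose π γ hπ0 hπ0' hπ using hex
  have flag : ∀ T x, ‖om (π x) (ψ T *ᵥ π x)‖ = ‖om x (T *ᵥ x)‖ := by
    intro T x
    by_cases hx : x = 0
    · rw [hπ0' x hx, hx]
      simp [om]
    · obtain ⟨hγ, e⟩ := hπ x hx
      rw [← RR_test' hσ (ψ T) (π x) hγ, ← e, h, RR_bm_N hσ]
  have hom : ∀ x y, ‖om (π x) (π y)‖ = ‖om x y‖ := by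
    intro x y
    by_cases hx : x = 0
    · rw [hπ0' x hx, hx]
      simp [om]
    by_cases hy : y = 0
    · rw [hπ0' y hy, hy]
      simp [om]
    have h1 := flag (Nn y) x
    rw [(hπ y hy).2, Matrix.add_mulVec, Nn_mulVec, Nn_mulVec, Matrix.smul_mulVec,
      Matrix.one_mulVec, om_add, om_smul, om_smul, om_self, om_smul, mul_zero, add_zero, norm_mul,
      norm_mul, om_antisymm (π y) (π x), om_antisymm y x, norm_neg, norm_neg, ← sq, ← sq] at h1
    exact (sq_eq_sq₀ (norm_nonneg _) (norm_nonneg _)).1 h1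
  have hsurj : ∀ z : Fin 2 → ℂ, z ≠ 0 → ∃ (x : Fin 2 → ℂ) (c : ℂ), z = c • π x := by
    intro z hz
    obtain ⟨T, hT⟩ := hs (Nn z)
    have h1 : PP σ T := by
      rw [← PP_iff hσ hs h, hT]
      have := PP_of_nil hσ hz 0 (fun _ => rfl)
      rwa [zero_smul, add_zero] at this
    obtain ⟨x, γ', hx, hγ', e⟩ := nil_of_PP hσ h1
    have h2 := flag T x
    rw [e, Matrix.add_mulVec, Nn_mulVec, om_self, zero_smul, Matrix.smul_mulVec,
      Matrix.one_mulVec, zero_add, om_smul, om_self, mul_zero, norm_zero, ← e, hT, Nn_mulVec,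
      om_smul, norm_mul, om_antisymm z, norm_neg, mul_self_eq_zero, norm_eq_zero] at h2
    obtain ⟨c, hc⟩ := parallel_of_om (hπ0 x hx) h2
    exact ⟨x, c, hc⟩
  have hW : ∀ (g : (Fin 2 → ℂ) →L[ℂ] ℂ) (v w : Fin 2 → ℂ), ∃ a b : ℂ, ‖g (π v)‖ = ‖a‖ ∧
      ‖g (π w)‖ = ‖b‖ ∧ ∀ s : ℂ, ‖g (π (v + s • w))‖ = ‖a + s * b‖ := by
    intro g v w
    have hg : ∃ z : Fin 2 → ℂ, ∀ y, g y = om z y := by
      refine ⟨![g ![0, 1], -g ![1, 0]], fun y => ?_⟩
      have hy : y = y 0 • ![1, 0] + y 1 • ![0, 1] := by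
        funext i; fin_cases i <;> simp
      conv_lhs => rw [hy]
      rw [map_add, map_smul, map_smul]
      simp [om]; ring
    obtain ⟨z, hz⟩ := hg
    by_cases hz0 : z = 0
    · refine ⟨0, 0, ?_, ?_, fun s => ?_⟩ <;> rw [hz, hz0] <;> simp [om]
    · obtain ⟨x, c, rfl⟩ := hsurj z hz0
      refine ⟨c * om x v, c * om x w, ?_, ?_, fun s => ?_⟩
      · rw [hz, om_smul_left, norm_mul, norm_mul, hom]
      · rw [hz, om_smul_left, norm_mul, norm_mul, hom]
      · rw [hz, om_smul_left, norm_mul, hom, om_add, om_smul, ← norm_mul]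
        congr 1; ring
  have hV : ∃ v w : Fin 2 → ℂ, LinearIndependent ℂ ![v, w] := by
    refine ⟨![1, 0], ![0, 1], ?_⟩
    rw [LinearIndependent.pair_iff]
    intro s t hst
    have h0 := congrFun hst 0
    have h1 := congrFun hst 1
    simp at h0 h1
    exact ⟨h0, h1⟩
  rcases wigner_pairing π hV hπ0 hW with ⟨A, hA⟩ | ⟨A, hA⟩
  · let A0 : MM := Matrix.of fun i j => A (Pi.single j 1) i
    have hA0 : ∀ x, A0 *ᵥ x = A x := by
      intro x
      have hx : x = x 0 • Pi.single 0 1 + x 1 • Pi.single 1 1 := by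
        funext i; fin_cases i <;> simp
      conv_rhs => rw [hx]
      rw [map_add, map_smul, map_smul]
      funext i
      fin_cases i
      · show (A0 *ᵥ x) 0 = _
        rw [mulVec0]
        show A (Pi.single 0 1) 0 * x 0 + A (Pi.single 1 1) 0 * x 1 =
          x 0 * A (Pi.single 0 1) 0 + x 1 * A (Pi.single 1 1) 0
        ring
      · show (A0 *ᵥ x) 1 = _
        rw [mulVec1]
        show A (Pi.single 0 1) 1 * x 0 + A (Pi.single 1 1) 1 * x 1 =
          x 0 * A (Pi.single 0 1) 1 + x 1 * A (Pi.single 1 1) 1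
        ring
    refine ⟨A0, ?_, Or.inl ?_⟩
    · obtain ⟨θ, hθ, e⟩ := hA ![1, 0]
      obtain ⟨θ', hθ', e'⟩ := hA ![0, 1]
      have h1 := hom ![1, 0] ![0, 1]
      rw [e, e', om_smul, om_smul_left, ← hA0, ← hA0, om_mul, norm_mul, norm_mul, norm_mul, hθ,
        hθ'] at h1
      simpa [om] using h1
    · intro T x
      obtain ⟨θ, hθ, e⟩ := hA x
      have h1 := flag T x
      rw [e, Matrix.mulVec_smul, om_smul, om_smul_left, norm_mul, norm_mul, hθ, one_mul, one_mul,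
        ← hA0] at h1
      exact h1
  · let A0 : MM := Matrix.of fun i j => A (Pi.single j 1) i
    have hA0 : ∀ x, A0 *ᵥ x = A (star x) := by
      intro x
      have hx : star x = star (x 0) • Pi.single 0 1 + star (x 1) • Pi.single 1 1 := by
        funext i; fin_cases i <;> simp
      conv_rhs => rw [hx]
      rw [map_add, LinearMap.map_smulₛₗ, LinearMap.map_smulₛₗ]
      funext i
      fin_cases i
      · show (A0 *ᵥ x) 0 = _
        rw [mulVec0]
        show A (Pi.single 0 1) 0 * x 0 + A (Pi.single 1 1) 0 * x 1 =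
          starRingEnd ℂ (star (x 0)) * A (Pi.single 0 1) 0 +
            starRingEnd ℂ (star (x 1)) * A (Pi.single 1 1) 0
        simp; ring
      · show (A0 *ᵥ x) 1 = _
        rw [mulVec1]
        show A (Pi.single 0 1) 1 * x 0 + A (Pi.single 1 1) 1 * x 1 =
          starRingEnd ℂ (star (x 0)) * A (Pi.single 0 1) 1 +
            starRingEnd ℂ (star (x 1)) * A (Pi.single 1 1) 1
        simp; ring
    have hA1 : ∀ x, A x = A0 *ᵥ star x := fun x => by rw [hA0, star_star]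
    refine ⟨A0, ?_, Or.inr ?_⟩
    · obtain ⟨θ, hθ, e⟩ := hA ![1, 0]
      obtain ⟨θ', hθ', e'⟩ := hA ![0, 1]
      have h1 := hom ![1, 0] ![0, 1]
      rw [e, e', om_smul, om_smul_left, hA1, hA1, om_mul, norm_mul, norm_mul, norm_mul, hθ,
        hθ'] at h1
      simpa [om] using h1
    · intro T x
      obtain ⟨θ, hθ, e⟩ := hA (star x)
      have h1 := flag (T.map (starRingEnd ℂ)) (star x)
      rw [e, Matrix.mulVec_smul, om_smul, om_smul_left, norm_mul, norm_mul, hθ, one_mul, one_mul,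
        ← hA0, map_conj_mulVec, om_star, norm_star] at h1
      exact h1

end wig

end D2

end PR
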