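import Pool.Agent.Helper16.PR.Mat2

/-!
# Piece CD16: dimension two, matrix version, second part
-/

namespace PR

namespace D2

open Matrix Polynomial

theorem ft_form {A T T' : MM} (hA : ‖A.det‖ = 1)
    (h : ∀ x, ‖om (A *ᵥ x) (T' *ᵥ (A *ᵥ x))‖ = ‖om x (T *ᵥ x)‖) :
    ∃ c μ : ℂ, ‖c‖ = 1 ∧ T' * A = A * (c • T + μ • (1 : MM)) := by
  have hdet : A.det ≠ 0 := by
    intro h0
    rw [h0, norm_zero] at hA
    norm_num at hA
  have hu : IsUnit A.det := isUnit_iff_ne_zero.2 hdet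
  set B : MM := A⁻¹ * T' * A with hB
  have hAB : A * B = T' * A := by
    rw [hB, ← Matrix.mul_assoc, ← Matrix.mul_assoc, Matrix.mul_nonsing_inv A hu, Matrix.one_mul]
  have h1 : ∀ x, ‖om x (B *ᵥ x)‖ = ‖om x (T *ᵥ x)‖ := by
    intro x
    rw [← h x, Matrix.mulVec_mulVec, ← hAB]
    clear_value B
    rw [← Matrix.mulVec_mulVec, om_mul, norm_mul, hA, one_mul]
  have h2 : ∀ M : MM, ∀ t : ℂ, (C (M 1 0) + C (M 1 1 - M 0 0) * X - C (M 0 1) * X ^ 2).eval t =
      om ![1, t] (M *ᵥ ![1, t]) := by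
    intro M t
    rw [om_mulVec]
    simp
  obtain ⟨c, hc, e⟩ := poly_norm_eq (C (T 1 0) + C (T 1 1 - T 0 0) * X - C (T 0 1) * X ^ 2)
    (C (B 1 0) + C (B 1 1 - B 0 0) * X - C (B 0 1) * X ^ 2) (fun t => by
      rw [h2, h2, h1])
  have e0 := congrArg (fun P => P.coeff 0) e
  have e1 := congrArg (fun P => P.coeff 1) e
  have e2 := congrArg (fun P => P.coeff 2) e
  simp [coeff_X, coeff_C, coeff_X_pow, mul_sub, mul_add] at e0 e1 e2
  refine ⟨c, B 0 0 - c * T 0 0, hc, ?_⟩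
  rw [← hAB]
  congr 1
  ext i j
  fin_cases i <;> fin_cases j
  · show B 0 0 = _
    simp [Matrix.add_apply, Matrix.smul_apply]
  · show B 0 1 = _
    simp [Matrix.add_apply, Matrix.smul_apply]
    linear_combination e2
  · show B 1 0 = _
    simp [Matrix.add_apply, Matrix.smul_apply]
    linear_combination e0
  · show B 1 1 = _
    simp [Matrix.add_apply, Matrix.smul_apply]
    linear_combination e1

/-! ### Killing the scalar part, `σ = 1` -/

/-- half of the trace -/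
noncomputable def tt (T : MM) : ℂ := (T 0 0 + T 1 1) / 2

/-- minus the determinant of the traceless part -/
noncomputable def qq (T : MM) : ℂ := ((T 0 0 - T 1 1) / 2) ^ 2 + T 0 1 * T 1 0

/-- the polar form -/
noncomputable def bb (T S : MM) : ℂ :=
  (T 0 0 - T 1 1) * (S 0 0 - S 1 1) / 4 + (T 0 1 * S 1 0 + T 1 0 * S 0 1) / 2

theorem trace_bm (T S : MM) : (bm 1 T S).trace = 4 * (tt T * tt S + bb T S) := by
  simp only [Matrix.trace_fin_two, bm_apply, tt, bb]; ring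

theorem det_bm (T S : MM) : (bm 1 T S).det =
    4 * ((tt T * tt S + bb T S) ^ 2 -
      (tt T ^ 2 * qq S + 2 * (tt T * tt S) * bb T S + tt S ^ 2 * qq T)) := by
  simp only [Matrix.det_fin_two, bm_apply, tt, bb, qq]; ring

theorem RR_bm (T S : MM) {r : ℂ}
    (hr : r ^ 2 = tt T ^ 2 * qq S + 2 * (tt T * tt S) * bb T S + tt S ^ 2 * qq T) :
    RR (bm 1 T S) = 2 * max ‖tt T * tt S + bb T S + r‖ ‖tt T * tt S + bb T S - r‖ := by
  unfold RR
  rw [trace_bm, det_bm, Rt_eq (l1 := 2 * (tt T * tt S + bb T S + r))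
    (l2 := 2 * (tt T * tt S + bb T S - r)) (by ring) (by rw [← hr]; ring), norm_mul, norm_mul,
    Complex.norm_ofNat, mul_max_of_nonneg _ _ (by norm_num)]

theorem tt_lin (c μ : ℂ) (T : MM) : tt (c • T + μ • (1 : MM)) = c * tt T + μ := by
  simp [tt]; ring

theorem qq_lin (c μ : ℂ) (T : MM) : qq (c • T + μ • (1 : MM)) = c ^ 2 * qq T := by
  simp [qq]; ring

theorem bb_lin (c μ : ℂ) (T S : MM) : bb (c • T + μ • (1 : MM)) S = c * bb T S := by
  simp [bb]; ring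

theorem bb_comm (T S : MM) : bb T S = bb S T := by
  simp [bb]; ring

theorem bb_self (T : MM) : bb T T = qq T := by
  simp [bb, qq]; ring

theorem sq_add_sq (x y : ℂ) : ‖x + y‖ ^ 2 + ‖x - y‖ ^ 2 = 2 * (‖x‖ ^ 2 + ‖y‖ ^ 2) := by
  have := parallelogram_law_with_norm ℝ x y
  nlinarith

/-- step (i) -/
theorem kill1 {T : MM} {c μ : ℂ} (hc : ‖c‖ = 1) (ht : tt T = 0)
    (h : RR (bm 1 (c • T + μ • (1 : MM)) (c • T + μ • (1 : MM))) = RR (bm 1 T T)) : μ = 0 := by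
  obtain ⟨ρ, hρ⟩ := IsAlgClosed.exists_pow_nat_eq (qq T) (n := 2) (by norm_num)
  rw [RR_bm (c • T + μ • (1 : MM)) (c • T + μ • (1 : MM)) (r := 2 * μ * (c * ρ)),
    RR_bm T T (r := 0)] at h
  · simp only [tt_lin, ht, bb_lin, mul_zero, zero_add] at h
    rw [bb_comm, bb_lin, bb_self, ← hρ, add_zero, sub_zero, max_self] at h
    have h1 : μ * μ + c * (c * ρ ^ 2) + 2 * μ * (c * ρ) = (μ + c * ρ) ^ 2 := by ring
    have h2 : μ * μ + c * (c * ρ ^ 2) - 2 * μ * (c * ρ) = (μ - c * ρ) ^ 2 := by ring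
    rw [h1, h2, norm_pow, norm_pow, norm_pow] at h
    have h3 := le_max_left (‖μ + c * ρ‖ ^ 2) (‖μ - c * ρ‖ ^ 2)
    have h4 := le_max_right (‖μ + c * ρ‖ ^ 2) (‖μ - c * ρ‖ ^ 2)
    have h5 := sq_add_sq μ (c * ρ)
    rw [norm_mul, hc, one_mul] at h5
    have h6 : ‖μ‖ ^ 2 ≤ 0 := by nlinarith
    have h7 : ‖μ‖ = 0 := by nlinarith [norm_nonneg μ]
    exact norm_eq_zero.1 h7
  · rw [ht, bb_self]; ring
  · rw [tt_lin, qq_lin, ht, bb_lin, bb_comm, bb_lin, bb_self, ← hρ]; ring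

theorem eq_or_neg {τ t : ℂ} (h : ∀ b : ℂ, max ‖b + τ‖ ‖b - τ‖ = max ‖b + t‖ ‖b - t‖) :
    τ = t ∨ τ = -t := by
  have h0 := h 0
  rw [zero_add, zero_sub, norm_neg, max_self, zero_add, zero_sub, norm_neg, max_self] at h0
  have h1 := h t
  have h2 : max ‖t + t‖ ‖t - t‖ = 2 * ‖t‖ := by
    rw [sub_self, norm_zero, ← two_mul, norm_mul, Complex.norm_ofNat]
    exact max_eq_left (by positivity)
  rw [h2] at h1
  have h3 := sq_add_sq t τ
  rw [h0] at h3
  rcases max_choice ‖t + τ‖ ‖t - τ‖ with h4 | h4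
  · left
    rw [h4] at h1
    rw [h1] at h3
    have h5 : ‖t - τ‖ ^ 2 = 0 := by linarith
    have h6 : t - τ = 0 := by simpa using h5
    exact (sub_eq_zero.1 h6).symm
  · right
    rw [h4] at h1
    rw [h1] at h3
    have h5 : ‖t + τ‖ ^ 2 = 0 := by linarith
    have h6 : t + τ = 0 := by simpa using h5
    linear_combination h6

/-- `T` is a scalar matrix -/
def IsSc (T : MM) : Prop := T = tt T • (1 : MM)

theorem isSc_iff (T : MM) : IsSc T ↔ T 0 1 = 0 ∧ T 1 0 = 0 ∧ T 0 0 = T 1 1 := by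
  unfold IsSc
  constructor
  · intro h
    refine ⟨?_, ?_, ?_⟩
    · rw [h]; simp
    · rw [h]; simp
    · rw [h]; simp
  · rintro ⟨h1, h2, h3⟩
    ext i j
    fin_cases i <;> fin_cases j
    · show T 0 0 = _
      simp [tt, h3]
    · show T 0 1 = _
      simp [h1]
    · show T 1 0 = _
      simp [h2]
    · show T 1 1 = _
      simp [tt, h3]

theorem exists_test {T : MM} (hT : ¬ IsSc T) (β : ℂ) :
    ∃ S : MM, tt S = 0 ∧ qq S = 1 ∧ bb T S = β := by
  rw [isSc_iff] at hT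
  by_cases h1 : T 0 1 = 0
  · by_cases h2 : T 1 0 = 0
    · have h3 : T 0 0 - T 1 1 ≠ 0 := fun h => hT ⟨h1, h2, sub_eq_zero.1 h⟩
      refine ⟨!![2 * β / (T 0 0 - T 1 1), 1; 1 - (2 * β / (T 0 0 - T 1 1)) ^ 2,
        -(2 * β / (T 0 0 - T 1 1))], ?_, ?_, ?_⟩
      · simp [tt]
      · simp [qq]
      · simp only [bb, h1, h2]
        simp
        field_simp
        ring
    · refine ⟨!![1, (2 * β - (T 0 0 - T 1 1)) / T 1 0; 0, -1], ?_, ?_, ?_⟩
      · simp [tt]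
      · simp [qq]
      · simp only [bb]
        simp
        field_simp
        ring
  · refine ⟨!![1, 0; (2 * β - (T 0 0 - T 1 1)) / T 0 1, -1], ?_, ?_, ?_⟩
    · simp [tt]
    · simp [qq]
    · simp only [bb]
      simp
      field_simp
      ring

/-- the adjugate -/
noncomputable def ad (T : MM) : MM := (2 * tt T) • (1 : MM) - T

theorem RR_scalar (z : ℂ) : RR (bm 1 (z • (1 : MM)) (z • (1 : MM))) = 2 * ‖z‖ ^ 2 := by
  have e1 : tt (z • (1 : MM)) = z := by simp [tt]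
  have e2 : qq (z • (1 : MM)) = 0 := by simp [qq]
  have e3 : ∀ S, bb (z • (1 : MM)) S = 0 := fun S => by simp [bb]
  rw [RR_bm (r := z * z * 0)]
  · rw [e1, e3]
    simp only [mul_zero, add_zero, sub_zero, max_self, norm_mul]
    ring
  · rw [e1, e2, e3]; ring

theorem kill2 {χ : MM → MM} {c μ : MM → ℂ} (hc : ∀ T, ‖c T‖ = 1)
    (hχ : ∀ T, χ T = c T • T + μ T • (1 : MM))
    (h : ∀ T S, RR (bm 1 (χ T) (χ S)) = RR (bm 1 T S)) (T : MM) :
    (∃ c' : ℂ, ‖c'‖ = 1 ∧ χ T = c' • T) ∨ (∃ c' : ℂ, ‖c'‖ = 1 ∧ χ T = c' • ad T) := by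
  have hk : ∀ S, tt S = 0 → μ S = 0 := fun S hS => kill1 (hc S) hS (by
    have := h S S
    rwa [hχ S] at this)
  have hcT : c T ≠ 0 := by
    intro h0
    have := hc T
    rw [h0, norm_zero] at this
    norm_num at this
  by_cases hT : IsSc T
  · left
    have e : T = tt T • (1 : MM) := hT
    have h1 : χ T = (c T * tt T + μ T) • (1 : MM) := by
      rw [hχ T, add_smul, ← smul_smul]
      exact congrArg (fun M => c T • M + μ T • (1 : MM)) e
    have h2 := h T T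
    rw [h1, RR_scalar] at h2
    have h3 : RR (bm 1 T T) = 2 * ‖tt T‖ ^ 2 := by
      rw [← RR_scalar (tt T)]
      exact congrArg (fun M => RR (bm 1 M M)) e
    rw [h3] at h2
    have h4 : ‖c T * tt T + μ T‖ = ‖tt T‖ := by
      have := norm_nonneg (c T * tt T + μ T)
      have := norm_nonneg (tt T)
      nlinarith
    by_cases h0 : tt T = 0
    · refine ⟨1, norm_one, ?_⟩
      rw [h0, norm_zero, norm_eq_zero] at h4
      rw [h0] at h1 e
      rw [h1, h4, one_smul, zero_smul]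
      rw [zero_smul] at e
      exact e.symm
    · refine ⟨(c T * tt T + μ T) / tt T, ?_, ?_⟩
      · rw [norm_div, h4, div_self (norm_ne_zero_iff.2 h0)]
      · rw [h1]
        have : (c T * tt T + μ T) • (1 : MM) =
            ((c T * tt T + μ T) / tt T) • (tt T • (1 : MM)) := by
          rw [smul_smul, div_mul_cancel₀ _ h0]
        rw [this]
        exact congrArg (fun M => ((c T * tt T + μ T) / tt T) • M) e.symm
  · have h1 : ∀ β : ℂ, max ‖β + (tt T + μ T / c T)‖ ‖β - (tt T + μ T / c T)‖ =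
        max ‖β + tt T‖ ‖β - tt T‖ := by
      intro β
      obtain ⟨S, hS1, hS2, hS3⟩ := exists_test hT β
      have h2 := h T S
      rw [hχ T, hχ S, hk S hS1,
        RR_bm (c T • T + μ T • (1 : MM)) (c S • S + (0 : ℂ) • (1 : MM))
          (r := (c T * tt T + μ T) * c S), RR_bm T S (r := tt T)] at h2
      · rw [tt_lin, tt_lin, bb_lin, bb_comm T (c S • S + (0 : ℂ) • (1 : MM)), bb_lin,
          bb_comm S T, hS1, hS3] at h2
        have e1 : (c T * tt T + μ T) * (c S * 0 + 0) + c T * (c S * β) +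
            (c T * tt T + μ T) * c S = (c T * c S) * (β + (tt T + μ T / c T)) := by
          field_simp; ring
        have e2 : (c T * tt T + μ T) * (c S * 0 + 0) + c T * (c S * β) -
            (c T * tt T + μ T) * c S = (c T * c S) * (β - (tt T + μ T / c T)) := by
          field_simp; ring
        rw [e1, e2, norm_mul, norm_mul, norm_mul, norm_mul, hc, hc, one_mul, one_mul, one_mul,
          mul_zero, zero_add] at h2
        linarith
      · rw [hS1, hS2, hS3]; ring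
      · rw [tt_lin, tt_lin, qq_lin, qq_lin, hS1, hS2]; ring
    rcases eq_or_neg h1 with h2 | h2
    · left
      have h3 : μ T = 0 := by
        have : μ T / c T = 0 := by linear_combination h2
        rwa [div_eq_zero_iff, or_iff_left hcT] at this
      exact ⟨c T, hc T, by rw [hχ T, h3, zero_smul, add_zero]⟩
    · right
      have h3 : μ T = -2 * tt T * c T := by
        have h4 : μ T / c T = -2 * tt T := by linear_combination h2
        rwa [div_eq_iff hcT] at h4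
      refine ⟨-c T, by rw [norm_neg, hc], ?_⟩
      rw [hχ T, h3]
      unfold ad
      rw [smul_sub, smul_smul, neg_smul, sub_neg_eq_add, add_comm]
      congr 2
      ring

/-! ### Uniformity of the type -/

theorem ad_apply00 (T : MM) : ad T 0 0 = T 1 1 := by
  simp [ad, tt]; ring
theorem ad_apply01 (T : MM) : ad T 0 1 = -T 0 1 := by
  simp [ad, tt]
theorem ad_apply10 (T : MM) : ad T 1 0 = -T 1 0 := by
  simp [ad, tt]
theorem ad_apply11 (T : MM) : ad T 1 1 = T 0 0 := by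
  simp [ad, tt]; ring

theorem tt_ad (T : MM) : tt (ad T) = tt T := by
  simp only [tt, ad_apply00, ad_apply11]; ring
theorem qq_ad (T : MM) : qq (ad T) = qq T := by
  simp only [qq, ad_apply00, ad_apply11, ad_apply01, ad_apply10]; ring
theorem bb_ad (T S : MM) : bb (ad T) S = -bb T S := by
  simp only [bb, ad_apply00, ad_apply11, ad_apply01, ad_apply10]; ring

/-- `RR (bm 1 T S)` depends only on the invariants -/
theorem RR_congr {T S T' S' : MM} (h1 : tt T = tt T') (h2 : tt S = tt S') (h3 : qq T = qq T')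
    (h4 : qq S = qq S') (h5 : bb T S = bb T' S') : RR (bm 1 T S) = RR (bm 1 T' S') := by
  unfold RR
  rw [trace_bm, trace_bm, det_bm, det_bm, h1, h2, h3, h4, h5]

theorem RR_ad (T S : MM) : RR (bm 1 (ad T) S) = RR (bm 1 T (ad S)) :=
  RR_congr (tt_ad T) (tt_ad S).symm (qq_ad T) (qq_ad S).symm (by
    rw [bb_ad, bb_comm T (ad S), bb_ad, bb_comm S T])

theorem bm_smul (c d : ℂ) (T S : MM) : bm 1 (c • T) (d • S) = (c * d) • bm 1 T S := by
  unfold bm
  simp only [one_smul, smul_mul_assoc, mul_smul_comm, smul_smul, smul_add, one_mul]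
  rw [mul_comm d c]

theorem RR_bm_smul {c d : ℂ} (hc : ‖c‖ = 1) (hd : ‖d‖ = 1) (T S : MM) :
    RR (bm 1 (c • T) (d • S)) = RR (bm 1 T S) := by
  rw [bm_smul, RR_smul, norm_mul, hc, hd, one_mul, one_mul]

/-- the test matrix -/
noncomputable def tst (l : ℂ) (x : Fin 2 → ℂ) : MM := 1 + l • Nn x

theorem tt_tst (l : ℂ) (x : Fin 2 → ℂ) : tt (tst l x) = 1 := by
  simp [tt, tst, Nn]; ring
theorem qq_tst (l : ℂ) (x : Fin 2 → ℂ) : qq (tst l x) = 0 := by
  simp [qq, tst, Nn]; ring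
theorem bb_tst (T : MM) (l : ℂ) (x : Fin 2 → ℂ) :
    bb T (tst l x) = l * om x (T *ᵥ x) / 2 := by
  rw [om_mulVec]
  simp [bb, tst, Nn]; ring

theorem norm_sq_sub (x y : ℂ) :
    ‖x + y‖ ^ 2 - ‖x - y‖ ^ 2 = 4 * (starRingEnd ℂ x * y).re := by
  rw [← Complex.normSq_eq_norm_sq, ← Complex.normSq_eq_norm_sq, Complex.normSq_apply,
    Complex.normSq_apply]
  simp
  ring

theorem test_bound {T : MM} {l : ℂ} {x : Fin 2 → ℂ}
    (h : RR (bm 1 T (ad (tst l x))) = RR (bm 1 T (tst l x))) :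
    |(l * (starRingEnd ℂ (tt T) * om x (T *ᵥ x))).re| ≤ ‖qq T‖ := by
  set b := l * om x (T *ᵥ x) / 2 with hb
  unfold RR at h
  have hd : ‖(bm 1 T (ad (tst l x))).det‖ = ‖(bm 1 T (tst l x)).det‖ := by
    congr 1
    rw [det_bm, det_bm, tt_ad, qq_ad, bb_comm T (ad (tst l x)), bb_ad, bb_comm _ T, tt_tst, qq_tst,
      bb_tst]
    ring
  have h1 := Rt_sum_sq h hd
  rw [det_bm, det_bm, trace_bm, trace_bm, tt_ad, qq_ad, bb_comm T (ad (tst l x)), bb_ad,
    bb_comm _ T, tt_tst, qq_tst, bb_tst, ← hb] at h1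
  have e1 : (4 * (tt T * 1 + -b)) = 4 * (tt T - b) := by ring
  have e2 : (4 * (tt T * 1 + b)) = 4 * (tt T + b) := by ring
  have e3 : (4 * (tt T * 1 + -b)) ^ 2 - 4 * (4 * ((tt T * 1 + -b) ^ 2 -
      (tt T ^ 2 * 0 + 2 * (tt T * 1) * -b + 1 ^ 2 * qq T))) = 16 * (qq T - 2 * tt T * b) := by
    ring
  have e4 : (4 * (tt T * 1 + b)) ^ 2 - 4 * (4 * ((tt T * 1 + b) ^ 2 -
      (tt T ^ 2 * 0 + 2 * (tt T * 1) * b + 1 ^ 2 * qq T))) = 16 * (qq T + 2 * tt T * b) := by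
    ring
  rw [e3, e4, e1, e2, norm_mul, norm_mul, norm_mul, norm_mul, Complex.norm_ofNat,
    Complex.norm_ofNat, mul_pow, mul_pow] at h1
  have h2 := norm_sq_sub (tt T) b
  have h3 : |‖qq T - 2 * tt T * b‖ - ‖qq T + 2 * tt T * b‖| ≤ 2 * ‖qq T‖ := by
    have h4 : ‖qq T - 2 * tt T * b‖ = ‖2 * tt T * b - qq T‖ := norm_sub_rev _ _
    have h5 : ‖qq T + 2 * tt T * b‖ = ‖-(2 * tt T * b) - qq T‖ := by
      rw [← norm_neg]; congr 1; ring
    rw [abs_le]
    constructor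
    · have := norm_sub_le (qq T - 2 * tt T * b) (-(2 * qq T))
      rw [show qq T - 2 * tt T * b - -(2 * qq T) = 3 * qq T - 2 * tt T * b by ring] at this
      have h6 : ‖qq T + 2 * tt T * b‖ ≤ ‖qq T - 2 * tt T * b‖ + ‖2 * qq T‖ := by
        have h7 : qq T + 2 * tt T * b = -(qq T - 2 * tt T * b) + 2 * qq T := by ring
        rw [h7]
        refine (norm_add_le _ _).trans ?_
        rw [norm_neg]
      rw [norm_mul, Complex.norm_ofNat] at h6
      linarith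
    · have h6 : ‖qq T - 2 * tt T * b‖ ≤ ‖qq T + 2 * tt T * b‖ + ‖2 * qq T‖ := by
        have h7 : qq T - 2 * tt T * b = -(qq T + 2 * tt T * b) + 2 * qq T := by ring
        rw [h7]
        refine (norm_add_le _ _).trans ?_
        rw [norm_neg]
      rw [norm_mul, Complex.norm_ofNat] at h6
      linarith
  have h8 : 4 * (starRingEnd ℂ (tt T) * b).re =
      ‖qq T - 2 * tt T * b‖ - ‖qq T + 2 * tt T * b‖ := by
    rw [← h2]; linarith
  rw [← h8] at h3
  have h9 : (l * (starRingEnd ℂ (tt T) * om x (T *ᵥ x))) = 2 * (starRingEnd ℂ (tt T) * b) := by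
    rw [hb]; ring
  rw [h9]
  have h10 : ((2 : ℂ) * (starRingEnd ℂ (tt T) * b)).re = 2 * (starRingEnd ℂ (tt T) * b).re := by
    simp
  rw [h10]
  rw [abs_mul, abs_of_pos (by norm_num : (0 : ℝ) < 4)] at h3
  rw [abs_mul, abs_of_pos (by norm_num : (0 : ℝ) < 2)]
  linarith

theorem exists_vec {T₁ T₂ : MM} (h1 : ¬ IsSc T₁) (h2 : ¬ IsSc T₂) :
    ∃ x : Fin 2 → ℂ, om x (T₁ *ᵥ x) ≠ 0 ∧ om x (T₂ *ᵥ x) ≠ 0 := by
  have key : ∀ T : MM, ¬ IsSc T →
      (C (T 1 0) + C (T 1 1 - T 0 0) * X - C (T 0 1) * X ^ 2 : ℂ[X]) ≠ 0 := by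
    intro T hT h0
    apply hT
    rw [isSc_iff]
    have e0 := congrArg (fun P => P.coeff 0) h0
    have e1 := congrArg (fun P => P.coeff 1) h0
    have e2 := congrArg (fun P => P.coeff 2) h0
    simp [coeff_X, coeff_C, coeff_X_pow] at e0 e1 e2
    exact ⟨e2, e0, (sub_eq_zero.1 e1).symm⟩
  have h3 := mul_ne_zero (key T₁ h1) (key T₂ h2)
  have h4 : ∃ t : ℂ, ((C (T₁ 1 0) + C (T₁ 1 1 - T₁ 0 0) * X - C (T₁ 0 1) * X ^ 2 : ℂ[X]) *
      (C (T₂ 1 0) + C (T₂ 1 1 - T₂ 0 0) * X - C (T₂ 0 1) * X ^ 2)).eval t ≠ 0 := by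
    by_contra hne
    push Not at hne
    exact h3 (Polynomial.funext fun t => by rw [hne t, eval_zero])
  obtain ⟨t, ht⟩ := h4
  rw [eval_mul] at ht
  refine ⟨![1, t], ?_, ?_⟩
  · rw [om_mulVec]
    have := left_ne_zero_of_mul ht
    simpa using this
  · rw [om_mulVec]
    have := right_ne_zero_of_mul ht
    simpa using this

theorem exists_l {z₁ z₂ : ℂ} (h1 : z₁ ≠ 0) (h2 : z₂ ≠ 0) (M : ℝ) :
    ∃ l : ℂ, M < |(l * z₁).re| ∧ M < |(l * z₂).re| := by
  have key : ∃ u : ℂ, (u * z₁).re ≠ 0 ∧ (u * z₂).re ≠ 0 := by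
    have n1 : (starRingEnd ℂ z₁ * z₁).re = Complex.normSq z₁ := by
      rw [mul_comm, Complex.mul_conj, Complex.ofReal_re]
    have n2 : (starRingEnd ℂ z₂ * z₂).re = Complex.normSq z₂ := by
      rw [mul_comm, Complex.mul_conj, Complex.ofReal_re]
    have p1 : Complex.normSq z₁ ≠ 0 := (Complex.normSq_pos.2 h1).ne'
    have p2 : Complex.normSq z₂ ≠ 0 := (Complex.normSq_pos.2 h2).ne'
    by_cases h3 : (starRingEnd ℂ z₁ * z₂).re = 0
    · have h4 : (starRingEnd ℂ z₂ * z₁).re = 0 := by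
        have : (starRingEnd ℂ z₂ * z₁).re = (starRingEnd ℂ z₁ * z₂).re := by
          simp; ring
        rw [this, h3]
      refine ⟨starRingEnd ℂ z₁ + starRingEnd ℂ z₂, ?_, ?_⟩
      · rw [add_mul, Complex.add_re, n1, h4, add_zero]; exact p1
      · rw [add_mul, Complex.add_re, n2, h3, zero_add]; exact p2
    · exact ⟨starRingEnd ℂ z₁, by rw [n1]; exact p1, h3⟩
  obtain ⟨u, hu1, hu2⟩ := key
  have q1 := abs_pos.2 hu1
  have q2 := abs_pos.2 hu2
  set m := min |(u * z₁).re| |(u * z₂).re|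
  have hm : 0 < m := lt_min q1 q2
  obtain ⟨r, hr⟩ := exists_gt (max (M / m) 0)
  have hr0 : 0 < r := (le_max_right _ _).trans_lt hr
  have hrM : M < r * m := by
    have := (le_max_left (M / m) 0).trans_lt hr
    rwa [div_lt_iff₀ hm] at this
  have e : ∀ z : ℂ, ((r : ℂ) * u * z).re = r * (u * z).re := fun z => by
    rw [mul_assoc, Complex.re_ofReal_mul]
  refine ⟨(r : ℂ) * u, ?_, ?_⟩
  · rw [e, abs_mul, abs_of_pos hr0]
    exact hrM.trans_le (mul_le_mul_of_nonneg_left (min_le_left _ _) hr0.le)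
  · rw [e, abs_mul, abs_of_pos hr0]
    exact hrM.trans_le (mul_le_mul_of_nonneg_left (min_le_right _ _) hr0.le)

theorem kill3 {χ : MM → MM} {c μ : MM → ℂ} (hc : ∀ T, ‖c T‖ = 1)
    (hχ : ∀ T, χ T = c T • T + μ T • (1 : MM))
    (h : ∀ T S, RR (bm 1 (χ T) (χ S)) = RR (bm 1 T S)) :
    (∀ T, ∃ c' : ℂ, ‖c'‖ = 1 ∧ χ T = c' • T) ∨ (∀ T, ∃ c' : ℂ, ‖c'‖ = 1 ∧ χ T = c' • ad T) := by
  by_contra hne
  push Not at hne
  obtain ⟨⟨T₂, hT₂⟩, ⟨T₁, hT₁⟩⟩ := hne
  have E1 : ∃ c' : ℂ, ‖c'‖ = 1 ∧ χ T₁ = c' • T₁ := by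
    rcases kill2 hc hχ h T₁ with h1 | ⟨c', h2, h3⟩
    · exact h1
    · exact absurd h3 (hT₁ c' h2)
  have F2 : ∃ c' : ℂ, ‖c'‖ = 1 ∧ χ T₂ = c' • ad T₂ := by
    rcases kill2 hc hχ h T₂ with ⟨c', h2, h3⟩ | h1
    · exact absurd h3 (hT₂ c' h2)
    · exact h1
  obtain ⟨c₁, hc₁, e₁⟩ := E1
  obtain ⟨c₂, hc₂, e₂⟩ := F2
  have adS : ∀ T : MM, IsSc T → ad T = T := by
    intro T hT
    rw [isSc_iff] at hT
    obtain ⟨h1, h2, h3⟩ := hT
    ext i j
    fin_cases i <;> fin_cases j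
    · show ad T 0 0 = T 0 0
      rw [ad_apply00, h3]
    · show ad T 0 1 = T 0 1
      rw [ad_apply01, h1, neg_zero]
    · show ad T 1 0 = T 1 0
      rw [ad_apply10, h2, neg_zero]
    · show ad T 1 1 = T 1 1
      rw [ad_apply11, h3]
  have adT : ∀ T : MM, tt T = 0 → ad T = -T := by
    intro T hT
    unfold ad
    rw [hT, mul_zero, zero_smul, zero_sub]
  have s1 : ¬ IsSc T₁ := fun hs => hT₁ c₁ hc₁ (by rw [adS T₁ hs, e₁])
  have s2 : ¬ IsSc T₂ := fun hs => hT₂ c₂ hc₂ (by rw [e₂, adS T₂ hs])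
  have t1 : tt T₁ ≠ 0 := fun ht => hT₁ (-c₁) (by rw [norm_neg, hc₁]) (by
    rw [adT T₁ ht, e₁, smul_neg, neg_smul, neg_neg])
  have t2 : tt T₂ ≠ 0 := fun ht => hT₂ (-c₂) (by rw [norm_neg, hc₂]) (by
    rw [e₂, adT T₂ ht, smul_neg, neg_smul])
  obtain ⟨x, w1, w2⟩ := exists_vec s1 s2
  obtain ⟨l, l1, l2⟩ := exists_l
    (mul_ne_zero ((map_ne_zero (starRingEnd ℂ)).2 t1) w1)
    (mul_ne_zero ((map_ne_zero (starRingEnd ℂ)).2 t2) w2) (max ‖qq T₁‖ ‖qq T₂‖)
  rcases kill2 hc hχ h (tst l x) with ⟨c₃, hc₃, e₃⟩ | ⟨c₃, hc₃, e₃⟩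
  · have h1 := h T₂ (tst l x)
    rw [e₂, e₃, RR_bm_smul hc₂ hc₃, RR_ad] at h1
    have h2 := test_bound h1
    exact absurd (h2.trans (le_max_right _ _)) (not_le.2 l2)
  · have h1 := h T₁ (tst l x)
    rw [e₁, e₃, RR_bm_smul hc₁ hc₃] at h1
    have h2 := test_bound h1
    exact absurd (h2.trans (le_max_left _ _)) (not_le.2 l1)

/-! ### The matrix theorem -/

theorem RR_sim {A M N : MM} (hA : A.det ≠ 0) (h : A * M = N * A) : RR M = RR N := by
  have hu : IsUnit A.det := isUnit_iff_ne_zero.2 hA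
  have hM : M = A⁻¹ * N * A := by
    rw [Matrix.mul_assoc, ← h, ← Matrix.mul_assoc, Matrix.nonsing_inv_mul A hu, Matrix.one_mul]
  have h1 : M.trace = N.trace := by
    rw [hM, Matrix.trace_mul_comm, ← Matrix.mul_assoc, Matrix.mul_nonsing_inv A hu,
      Matrix.one_mul]
  have h2 : M.det = N.det := by
    have := congrArg Matrix.det h
    rw [Matrix.det_mul, Matrix.det_mul, mul_comm N.det] at this
    exact mul_left_cancel₀ hA this
  unfold RR
  rw [h1, h2]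

theorem Rt_conj (τ δ : ℂ) : Rt (starRingEnd ℂ τ) (starRingEnd ℂ δ) = Rt τ δ := by
  obtain ⟨l1, l2, h1, h2⟩ := exists_roots τ δ
  rw [Rt_eq (l1 := starRingEnd ℂ l1) (l2 := starRingEnd ℂ l2) (by rw [← map_add, h1])
    (by rw [← map_mul, h2]), Rt_eq h1 h2, Complex.norm_conj, Complex.norm_conj]

theorem RR_conj (M : MM) : RR (M.map (starRingEnd ℂ)) = RR M := by
  unfold RR
  rw [← Rt_conj M.trace M.det]
  congr 1
  · simp [Matrix.trace_fin_two]
  · simp [Matrix.det_fin_two]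

theorem bm_conj (T S : MM) : bm 1 (T.map (starRingEnd ℂ)) (S.map (starRingEnd ℂ)) =
    (bm 1 T S).map (starRingEnd ℂ) := by
  ext i j
  simp only [bm_apply, Matrix.map_apply]
  simp

theorem map_conj_conj (T : MM) : (T.map (starRingEnd ℂ)).map (starRingEnd ℂ) = T := by
  ext i j
  simp

theorem sim_aux {A M N P Q : MM} (h1 : P * A = A * M) (h2 : Q * A = A * N) :
    A * bm 1 M N = bm 1 P Q * A := by
  unfold bm
  rw [one_smul, one_smul, Matrix.mul_add, Matrix.add_mul, ← Matrix.mul_assoc A M N, ← h1,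
    Matrix.mul_assoc P A N, ← h2, ← Matrix.mul_assoc A N M, ← h2, Matrix.mul_assoc Q A M, ← h1,
    Matrix.mul_assoc, Matrix.mul_assoc]

/-- the form of `ψ` -/
def Fm (σ : ℂ) (ψ : MM → MM) (A : MM) : Prop :=
  ∃ c μ : MM → ℂ, (∀ T, ‖c T‖ = 1) ∧ (σ = 1 → ∀ T, μ T = 0) ∧
    ((∀ T, ψ T * A = A * (c T • T + μ T • (1 : MM))) ∨
     (∀ T, ψ T * A = A * (c T • ad T + μ T • (1 : MM))))

theorem Fm_of {σ : ℂ} (hσ : σ = 1 ∨ σ = -1) {ψ : MM → MM} {A : MM} (hA : ‖A.det‖ = 1)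
    (h : σ = 1 → ∀ T S, RR (bm 1 (ψ T) (ψ S)) = RR (bm 1 T S))
    (hf : ∀ T x, ‖om (A *ᵥ x) (ψ T *ᵥ (A *ᵥ x))‖ = ‖om x (T *ᵥ x)‖) : Fm σ ψ A := by
  have hex := fun T => ft_form hA (hf T)
  choose c μ hc hψ using hex
  rcases hσ with rfl | rfl
  · have hA0 : A.det ≠ 0 := by
      intro h0
      rw [h0, norm_zero] at hA
      norm_num at hA
    have h1 : ∀ T S, RR (bm 1 (c T • T + μ T • (1 : MM)) (c S • S + μ S • (1 : MM))) =
        RR (bm 1 T S) := by
      intro T S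
      rw [← h rfl T S]
      exact RR_sim hA0 (sim_aux (hψ T) (hψ S))
    rcases kill3 (χ := fun T => c T • T + μ T • (1 : MM)) hc (fun _ => rfl) h1 with h2 | h2
    · choose c' hc' e using h2
      exact ⟨c', fun _ => 0, hc', fun _ _ => rfl, Or.inl fun T => by
        rw [hψ, e, zero_smul, add_zero]⟩
    · choose c' hc' e using h2
      exact ⟨c', fun _ => 0, hc', fun _ _ => rfl, Or.inr fun T => by
        rw [hψ, e, zero_smul, add_zero]⟩
  · exact ⟨c, μ, hc, fun h => by norm_num at h, Or.inl hψ⟩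

theorem mat_main {σ : ℂ} (hσ : σ = 1 ∨ σ = -1) {ψ : MM → MM} (hs : Function.Surjective ψ)
    (h : ∀ T S, RR (bm σ (ψ T) (ψ S)) = RR (bm σ T S)) :
    ∃ A : MM, A.det ≠ 0 ∧ (Fm σ ψ A ∨ Fm σ (fun T => ψ (T.map (starRingEnd ℂ))) A) := by
  obtain ⟨A, hA, h1 | h1⟩ := wig hσ hs h
  · refine ⟨A, ?_, Or.inl (Fm_of hσ hA (fun hσ' => by subst hσ'; exact h) h1)⟩
    intro h0
    rw [h0, norm_zero] at hA
    norm_num at hA
  · refine ⟨A, ?_, Or.inr (Fm_of hσ hA (fun hσ' T S => ?_) h1)⟩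
    · intro h0
      rw [h0, norm_zero] at hA
      norm_num at hA
    · subst hσ'
      rw [h, bm_conj, RR_conj]

end D2

end PR
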